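import Mathlib

set_option autoImplicit false

namespace Pool.Agent.H626R3.Ghost

/-- The Hilbert space `ℓ₂(X)`. -/
noncomputable abbrev L2 (X : Type*) : Type _ := lp (fun _ : X => ℂ) 2

open Classical in
/-- The standard basis vector `δ_x` of `ℓ₂(X)`. -/
noncomputable def dl {X : Type*} (x : X) : L2 X := lp.single 2 x (1 : ℂ)

/-- The matrix entry `⟨T δ_y, δ_x⟩` of a bounded operator on `ℓ₂(X)` (Mathlib inner products are
linear in the second variable). -/
noncomputable def ent {X : Type*} (T : L2 X →L[ℂ] L2 X) (x y : X) : ℂ := inner ℂ (dl x) (T (dl y))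

/-- Uniformly locally finite metric spaces: balls of a given radius are uniformly finite. -/
def ULF (X : Type*) [MetricSpace X] : Prop :=
  ∀ r : ℝ, ∃ N : ℕ, ∀ x : X, (Metric.closedBall x r).Finite ∧ (Metric.closedBall x r).ncard ≤ N

/-- `T` has finite propagation. -/
def FinProp {X : Type*} [MetricSpace X] (T : L2 X →L[ℂ] L2 X) : Prop :=
  ∃ R : ℝ, ∀ x y : X, ent T x y ≠ 0 → dist x y ≤ R

/-- The uniform Roe algebra: the norm closure of the finite propagation operators. -/
def roe (X : Type*) [MetricSpace X] : Set (L2 X →L[ℂ] L2 X) := closure {T | FinProp T}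

/-- Ghost operators: for every `ε` the matrix entries outside of some finite square are smaller
than `ε`. -/
def IsGhost {X : Type*} (T : L2 X →L[ℂ] L2 X) : Prop :=
  ∀ ε : ℝ, 0 < ε → ∃ F : Finset X, ∀ x y : X, ¬ (x ∈ F ∧ y ∈ F) → ‖ent T x y‖ < ε

section basics

variable {X : Type*}

theorem inner_dl (x : X) (v : L2 X) : inner ℂ (dl x) v = (v : X → ℂ) x := by
  classical
  unfold dl
  rw [lp.inner_single_left]
  simp

theorem dl_apply (x y : X) [Decidable (y = x)] : (dl x : X → ℂ) y = if y = x then 1 else 0 := by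
  classical
  unfold dl
  split_ifs with h
  · subst h; exact lp.single_apply_self _ _ _
  · exact lp.single_apply_ne _ _ _ h

theorem norm_dl (x : X) : ‖dl x‖ = 1 := by
  classical
  unfold dl
  rw [lp.norm_single (by norm_num)]
  simp

theorem ent_eq (T : L2 X →L[ℂ] L2 X) (x y : X) : ent T x y = (T (dl y) : X → ℂ) x :=
  inner_dl _ _

theorem ent_add (S T : L2 X →L[ℂ] L2 X) (x y : X) : ent (S + T) x y = ent S x y + ent T x y := by
  simp [ent]

theorem ent_smul (c : ℂ) (T : L2 X →L[ℂ] L2 X) (x y : X) : ent (c • T) x y = c * ent T x y := by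
  simp [ent]

theorem norm_ent_le (T : L2 X →L[ℂ] L2 X) (x y : X) : ‖ent T x y‖ ≤ ‖T‖ := by
  unfold ent
  refine (norm_inner_le_norm _ _).trans ?_
  rw [norm_dl, one_mul]
  refine (T.le_opNorm _).trans ?_
  rw [norm_dl, mul_one]

theorem ent_one (x y : X) [Decidable (x = y)] :
    ent (1 : L2 X →L[ℂ] L2 X) x y = if x = y then 1 else 0 := by
  rw [ent_eq]
  exact dl_apply y x

theorem fin_exp (v : L2 X) (s : Finset X) (h : ∀ z, z ∉ s → (v : X → ℂ) z = 0) :
    v = ∑ z ∈ s, (v : X → ℂ) z • dl z := by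
  classical
  ext w
  rw [lp.coeFn_sum, Finset.sum_apply]
  simp only [lp.coeFn_smul, Pi.smul_apply, dl_apply, smul_eq_mul, mul_ite, mul_one, mul_zero]
  rw [Finset.sum_ite_eq]
  split_ifs with hw
  · rfl
  · exact h w hw

end basics

section alg

variable {X : Type*} [MetricSpace X]

theorem finProp_zero : FinProp (0 : L2 X →L[ℂ] L2 X) := ⟨0, fun x y h => by simp [ent] at h⟩

theorem finProp_one : FinProp (1 : L2 X →L[ℂ] L2 X) := by
  classical
  refine ⟨0, fun x y h => ?_⟩
  rw [ent_one] at h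
  have : x = y := by
    by_contra hne
    exact h (if_neg hne)
  rw [this, dist_self]

theorem FinProp.add {S T : L2 X →L[ℂ] L2 X} (hS : FinProp S) (hT : FinProp T) : FinProp (S + T) := by
  obtain ⟨R, hR⟩ := hS
  obtain ⟨R', hR'⟩ := hT
  refine ⟨max R R', fun x y h => ?_⟩
  rw [ent_add] at h
  by_cases h1 : ent S x y = 0
  · rw [h1, zero_add] at h
    exact (hR' x y h).trans (le_max_right _ _)
  · exact (hR x y h1).trans (le_max_left _ _)

theorem FinProp.smul {T : L2 X →L[ℂ] L2 X} (c : ℂ) (hT : FinProp T) : FinProp (c • T) := by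
  obtain ⟨R, hR⟩ := hT
  refine ⟨R, fun x y h => hR x y ?_⟩
  rw [ent_smul] at h
  exact right_ne_zero_of_mul h

/-- column expansion of a finite propagation operator -/
theorem col_exp (hX : ULF X) {T : L2 X →L[ℂ] L2 X} {R : ℝ}
    (hR : ∀ x y : X, ent T x y ≠ 0 → dist x y ≤ R) (y : X) :
    T (dl y) = ∑ z ∈ ((hX R).choose_spec y).1.toFinset, ent T z y • dl z := by
  have h := fin_exp (T (dl y)) ((hX R).choose_spec y).1.toFinset (by
    intro z hz
    rw [← ent_eq]
    by_contra hne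
    exact hz ((Set.Finite.mem_toFinset _).2 (Metric.mem_closedBall.2 (hR z y hne))))
  refine h.trans (Finset.sum_congr rfl fun z _ => ?_)
  rw [ent_eq]

theorem ent_mul (hX : ULF X) (S : L2 X →L[ℂ] L2 X) {T : L2 X →L[ℂ] L2 X} {R : ℝ}
    (hR : ∀ x y : X, ent T x y ≠ 0 → dist x y ≤ R) (x y : X) :
    ent (S * T) x y = ∑ z ∈ ((hX R).choose_spec y).1.toFinset, ent T z y * ent S x z := by
  have h1 : ent (S * T) x y = inner ℂ (dl x) (S (T (dl y))) := rfl
  rw [h1, col_exp hX hR y, map_sum, inner_sum]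
  refine Finset.sum_congr rfl fun z _ => ?_
  rw [map_smul, inner_smul_right]
  rfl

theorem FinProp.mul (hX : ULF X) {S T : L2 X →L[ℂ] L2 X} (hS : FinProp S) (hT : FinProp T) :
    FinProp (S * T) := by
  obtain ⟨R, hR⟩ := hS
  obtain ⟨R', hR'⟩ := hT
  refine ⟨R + R', fun x y h => ?_⟩
  rw [ent_mul hX S hR'] at h
  obtain ⟨z, _, hz⟩ := Finset.exists_ne_zero_of_sum_ne_zero h
  have h1 := hR' z y (left_ne_zero_of_mul hz)
  have h2 := hR x z (right_ne_zero_of_mul hz)
  linarith [dist_triangle x z y]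

theorem finProp_roe {T : L2 X →L[ℂ] L2 X} (h : FinProp T) : T ∈ roe X := subset_closure h

theorem roe_one : (1 : L2 X →L[ℂ] L2 X) ∈ roe X := finProp_roe finProp_one

theorem roe_zero : (0 : L2 X →L[ℂ] L2 X) ∈ roe X := finProp_roe finProp_zero

theorem roe_add {S T : L2 X →L[ℂ] L2 X} (hS : S ∈ roe X) (hT : T ∈ roe X) : S + T ∈ roe X :=
  map_mem_closure₂ continuous_add hS hT fun _ ha _ hb => FinProp.add ha hb

theorem roe_smul {T : L2 X →L[ℂ] L2 X} (c : ℂ) (hT : T ∈ roe X) : c • T ∈ roe X :=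
  map_mem_closure (continuous_const_smul c) hT fun _ ha => FinProp.smul c ha

theorem roe_sub {S T : L2 X →L[ℂ] L2 X} (hS : S ∈ roe X) (hT : T ∈ roe X) : S - T ∈ roe X := by
  have h := roe_add hS (roe_smul (-1) hT)
  rwa [neg_one_smul, ← sub_eq_add_neg] at h

theorem roe_mul (hX : ULF X) {S T : L2 X →L[ℂ] L2 X} (hS : S ∈ roe X) (hT : T ∈ roe X) :
    S * T ∈ roe X :=
  map_mem_closure₂ continuous_mul hS hT fun _ ha _ hb => FinProp.mul hX ha hb

theorem roe_pow (hX : ULF X) {T : L2 X →L[ℂ] L2 X} (hT : T ∈ roe X) (n : ℕ) : T ^ n ∈ roe X := by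
  induction n with
  | zero => rw [pow_zero]; exact roe_one
  | succ n ih => rw [pow_succ]; exact roe_mul hX ih hT

theorem roe_sum {ι : Type*} (s : Finset ι) (f : ι → L2 X →L[ℂ] L2 X) (h : ∀ i ∈ s, f i ∈ roe X) :
    ∑ i ∈ s, f i ∈ roe X := by
  classical
  induction s using Finset.induction_on with
  | empty => simpa using roe_zero
  | insert a s ha ih =>
    rw [Finset.sum_insert ha]
    exact roe_add (h a (Finset.mem_insert_self _ _))
      (ih fun i hi => h i (Finset.mem_insert_of_mem hi))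

/-- the geometric series stays in the uniform Roe algebra -/
theorem roe_geom (hX : ULF X) {a : L2 X →L[ℂ] L2 X} (ha : a ∈ roe X) (hn : ‖a‖ < 1) :
    (∑' n : ℕ, a ^ n) ∈ roe X := by
  have hs : Summable (fun n : ℕ => a ^ n) := by
    exact summable_geometric_of_norm_lt_one hn
  have hc : IsClosed (roe X) := isClosed_closure
  exact hc.mem_of_tendsto hs.hasSum (Filter.Eventually.of_forall fun s =>
    roe_sum s _ fun i _ => roe_pow hX ha i)

/-- ghosts form a right ideal in the uniform Roe algebra -/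
theorem IsGhost.mul (hX : ULF X) {p T : L2 X →L[ℂ] L2 X} (hp : IsGhost p) (hT : T ∈ roe X) :
    IsGhost (p * T) := by
  classical
  intro ε hε
  obtain ⟨T0, hT0, hd⟩ := Metric.mem_closure_iff.1 hT (ε / (2 * (‖p‖ + 1)))
    (by have := norm_nonneg p; positivity)
  obtain ⟨R, hR⟩ := hT0
  obtain ⟨N, hN⟩ : ∃ N : ℕ, N = (hX R).choose := ⟨_, rfl⟩
  have hball := (hX R).choose_spec
  rw [← hN] at hball
  obtain ⟨F, hF⟩ := hp (ε / (2 * ((N + 1) * (‖T0‖ + 1))))
    (by have := norm_nonneg T0; positivity)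
  refine ⟨F ∪ F.biUnion fun z => (hball z).1.toFinset, fun x y hxy => ?_⟩
  have key : ∀ z, dist z y ≤ R → ‖ent p x z‖ < ε / (2 * ((N + 1) * (‖T0‖ + 1))) := by
    intro z hz
    apply hF
    rintro ⟨h1, h2⟩
    apply hxy
    refine ⟨Finset.mem_union_left _ h1, Finset.mem_union_right _ ?_⟩
    rw [Finset.mem_biUnion]
    refine ⟨z, h2, (Set.Finite.mem_toFinset _).2 (Metric.mem_closedBall.2 ?_)⟩
    rw [dist_comm]; exact hz
  have e1 : ent (p * T) x y = ent (p * T0) x y + ent (p * (T - T0)) x y := by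
    rw [← ent_add, ← mul_add]
    congr 1
    rw [add_sub_cancel]
  have e2 : ‖ent (p * (T - T0)) x y‖ < ε / 2 := by
    refine lt_of_le_of_lt (norm_ent_le _ _ _) ?_
    refine lt_of_le_of_lt (norm_mul_le _ _) ?_
    rw [dist_eq_norm] at hd
    have hp0 := norm_nonneg p
    calc ‖p‖ * ‖T - T0‖ ≤ ‖p‖ * (ε / (2 * (‖p‖ + 1))) :=
          mul_le_mul_of_nonneg_left hd.le hp0
      _ < ε / 2 := by
          rw [mul_div_assoc', div_lt_div_iff₀ (by positivity) (by norm_num)]
          nlinarith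
  have e3 : ‖ent (p * T0) x y‖ ≤ ε / 2 := by
    rw [ent_mul hX p hR]
    refine (norm_sum_le _ _).trans ?_
    have hT00 := norm_nonneg T0
    have hterm : ∀ z ∈ ((hX R).choose_spec y).1.toFinset,
        ‖ent T0 z y * ent p x z‖ ≤ ‖T0‖ * (ε / (2 * ((N + 1) * (‖T0‖ + 1)))) := by
      intro z hz
      rw [norm_mul]
      have hz' : dist z y ≤ R := Metric.mem_closedBall.1 ((Set.Finite.mem_toFinset _).1 hz)
      exact mul_le_mul (norm_ent_le _ _ _) (key z hz').le (norm_nonneg _) hT00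
    refine (Finset.sum_le_card_nsmul _ _ _ hterm).trans ?_
    have hcard : (((hX R).choose_spec y).1.toFinset).card ≤ N := by
      rw [← Set.ncard_eq_toFinset_card _ ((hX R).choose_spec y).1, hN]
      exact ((hX R).choose_spec y).2
    rw [nsmul_eq_mul]
    have hc : ((((hX R).choose_spec y).1.toFinset).card : ℝ) ≤ N := by exact_mod_cast hcard
    have hpos : 0 ≤ ‖T0‖ * (ε / (2 * ((N + 1) * (‖T0‖ + 1)))) := by positivity
    refine (mul_le_mul_of_nonneg_right hc hpos).trans ?_
    have hN0 : (0 : ℝ) ≤ N := Nat.cast_nonneg N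
    rw [← mul_assoc, mul_div_assoc', div_le_div_iff₀ (by positivity) (by norm_num)]
    have : (N : ℝ) * ‖T0‖ ≤ (N + 1) * (‖T0‖ + 1) := by nlinarith
    nlinarith
  rw [e1]
  exact lt_of_le_of_lt (norm_add_le _ _) (by linarith)

end alg

end Pool.Agent.H626R3.Ghost
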