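import Pool.Agent.H626R3.Ghost.Ops

set_option autoImplicit false

namespace Pool.Agent.H626R3.Ghost

open ContinuousLinearMap

variable {W : Type*} [MetricSpace W]

/-- the data we carry along -/
structure GP (p : L2 W →L[ℂ] L2 W) : Prop where
  idem : p * p = p
  sa : star p = p
  mem : p ∈ roe W
  ghost : IsGhost p
  nc : ¬ IsCompactOperator p

theorem cut_one (hW : ULF W) {p : L2 W →L[ℂ] L2 W} (hp : GP p) (w : W) :
    ∃ p' : L2 W →L[ℂ] L2 W, GP p' ∧ p' * p = p' ∧ p' (dl w) = 0 := by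
  by_cases h0 : p (dl w) = 0
  · exact ⟨p, hp, hp.idem, h0⟩
  set c0 : ℝ := ‖p (dl w)‖ ^ 2 with hc0
  have hc0pos : c0 ≠ 0 := by
    rw [hc0]
    exact pow_ne_zero _ (norm_ne_zero_iff.2 h0)
  have hent : ent p w w = (c0 : ℂ) := proj_diag hp.idem hp.sa w
  have hcC : (c0 : ℂ) ≠ 0 := by exact_mod_cast hc0pos
  set q : L2 W →L[ℂ] L2 W := p * rk w * p with hq
  have hEpE : rk w * p * rk w = (c0 : ℂ) • rk w := by rw [rk_mul, hent]
  have hqq : q * q = (c0 : ℂ) • q := by
    calc q * q = p * (rk w * (p * p) * rk w) * p := by rw [hq]; simp only [mul_assoc]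
      _ = p * (rk w * p * rk w) * p := by rw [hp.idem]
      _ = (c0 : ℂ) • q := by rw [hEpE, mul_smul_comm, smul_mul_assoc]
  have hpq : p * q = q := by
    rw [hq, ← mul_assoc, ← mul_assoc, hp.idem]
  have hqp : q * p = q := by
    rw [hq, mul_assoc, hp.idem]
  have hsq : star q = q := by
    rw [hq, star_mul, star_mul, hp.sa, rk_star, mul_assoc]
  set c : ℂ := (c0 : ℂ)⁻¹ with hc
  have hcc : c * c0 = 1 := inv_mul_cancel₀ hcC
  have hp' : p - c • q = p * (1 - c • (rk w * p)) := by
    rw [mul_sub, mul_one, mul_smul_comm, hq, mul_assoc]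
  have hpp : (p - c • q) * p = p - c • q := by
    rw [sub_mul, smul_mul_assoc, hqp, hp.idem]
  refine ⟨p - c • q, ⟨?_, ?_, ?_, ?_, ?_⟩, hpp, ?_⟩
  · rw [mul_sub, hpp, mul_smul_comm, sub_mul, smul_mul_assoc, hpq, hqq, smul_smul, hcc, one_smul,
      sub_self, smul_zero, sub_zero]
  · rw [star_sub, star_smul, hp.sa, hsq]
    congr 2
    rw [hc]
    simp
  · rw [hp']
    exact roe_mul hW hp.mem (roe_sub roe_one (roe_smul _ (roe_mul hW
      (finProp_roe (finProp_rk w)) hp.mem)))
  · rw [hp']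
    exact hp.ghost.mul hW (roe_sub roe_one (roe_smul _ (roe_mul hW
      (finProp_roe (finProp_rk w)) hp.mem)))
  · intro hcpt
    apply hp.nc
    have h1 : IsCompactOperator (c • q) := by
      have h2 : IsCompactOperator (p * rk w * p) := by
        have h3 : IsCompactOperator (p * rk w) := (rk_compact w).clm_comp p
        exact h3.comp_clm p
      exact h2.smul c
    have h4 := hcpt.add h1
    have h5 : (⇑(p - c • q) + ⇑(c • q) : L2 W → L2 W) = ⇑p := by
      rw [← FunLike.coe_add, sub_add_cancel]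
    rw [h5] at h4
    exact h4
  · have h1 : q (dl w) = (c0 : ℂ) • p (dl w) := by
      change p (rk w (p (dl w))) = _
      rw [rk_apply, map_smul]
      change ent p w w • _ = _
      rw [hent]
    rw [sub_apply, smul_apply, h1, smul_smul, hcc, one_smul, sub_self]

theorem cut_fin (hW : ULF W) {p : L2 W →L[ℂ] L2 W} (hp : GP p) (F : Finset W) :
    ∃ p' : L2 W →L[ℂ] L2 W, GP p' ∧ p' * p = p' ∧ ∀ w ∈ F, p' (dl w) = 0 := by
  classical
  induction F using Finset.induction_on with
  | empty => exact ⟨p, hp, hp.idem, by simp⟩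
  | insert a F ha ih =>
    obtain ⟨p1, h1, h2, h3⟩ := ih
    obtain ⟨p2, g1, g2, g3⟩ := cut_one hW h1 a
    refine ⟨p2, g1, ?_, ?_⟩
    · rw [← g2, mul_assoc, h2]
    · intro w hw
      rcases Finset.mem_insert.1 hw with rfl | hw
      · exact g3
      · rw [← g2]
        change p2 (p1 (dl w)) = 0
        rw [h3 w hw, map_zero]

theorem cut_small (hW : ULF W) {p : L2 W →L[ℂ] L2 W} (hp : GP p) (δ : ℝ) (hδ : 0 < δ) :
    ∃ p' : L2 W →L[ℂ] L2 W, GP p' ∧ ∀ w, ‖p' (dl w)‖ ≤ δ := by
  obtain ⟨F, hF⟩ := hp.ghost (δ ^ 2) (by positivity)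
  obtain ⟨p', h1, h2, h3⟩ := cut_fin hW hp F
  refine ⟨p', h1, fun w => ?_⟩
  by_cases hw : w ∈ F
  · rw [h3 w hw, norm_zero]; exact hδ.le
  · have h4 := hF w w (fun h => hw h.1)
    rw [proj_diag hp.idem hp.sa, Complex.norm_real, Real.norm_eq_abs, abs_of_nonneg (by positivity)]
      at h4
    have h5 : ‖p (dl w)‖ ≤ δ := by
      by_contra hcon
      push Not at hcon
      nlinarith [norm_nonneg (p (dl w))]
    rw [← h2]
    exact (proj_norm_le h1.idem h1.sa _).trans h5

/-- The algebraic heart: if `D` is bounded below on the range of the projection `p`, then the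
compression of `p` to the range of `D` is similar to `p`. -/
theorem transfer (hW : ULF W) {V : Type*} [MetricSpace V] (σ : V → W) (hσ : Function.Injective σ)
    (hc : ∀ R : ℝ, ∃ S : ℝ, ∀ c c' : V, dist (σ c) (σ c') ≤ R → dist c c' ≤ S)
    {p : L2 W →L[ℂ] L2 W} (hp : GP p) (t : ℝ) (ht : 0 < t) (ht1 : t ≤ 1)
    (hlow : ∀ v, p v = v → t * ‖v‖ ^ 2 ≤ ‖res σ hσ v‖ ^ 2) :
    ∃ Q : L2 V →L[ℂ] L2 V, Q * Q = Q ∧ star Q = Q ∧ Q ∈ roe V ∧ IsGhost Q ∧
      ¬ IsCompactOperator Q := by
  set D := dg σ hσ with hD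
  have hDD : D * D = D := dg_mul σ hσ
  have hDs : star D = D := dg_star σ hσ
  have hDm : D ∈ roe W := finProp_roe (finProp_dg σ hσ)
  have hpp := hp.idem
  have hps := hp.sa
  set a : L2 W →L[ℂ] L2 W := p * (1 - D) * p with ha
  have hpa : p * a = a := by rw [ha, ← mul_assoc, ← mul_assoc, hpp]
  have hap : a * p = a := by rw [ha, mul_assoc, hpp]
  have hasa : star a = a := by
    rw [ha, star_mul, star_mul, hps, star_sub, star_one, hDs, mul_assoc]
  have haD : a = p - p * D * p := by
    rw [ha, mul_sub, mul_one, sub_mul, hpp]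
  have ham : a ∈ roe W := by
    rw [haD]
    exact roe_sub hp.mem (roe_mul hW (roe_mul hW hp.mem hDm) hp.mem)
  have hresD : ∀ v, ‖res σ hσ v‖ ^ 2 = ‖D v‖ ^ 2 := by
    intro v
    have e1 : D v = resA σ hσ (res σ hσ v) := rfl
    have e2 : inner ℂ (resA σ hσ (res σ hσ v)) (resA σ hσ (res σ hσ v)) =
        inner ℂ (res σ hσ v) (res σ hσ v) := by
      conv_lhs => rw [resA]
      rw [adjoint_inner_left]
      change inner ℂ (res σ hσ v) (res σ hσ (resA σ hσ (res σ hσ v))) = _
      rw [res_resA]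
    rw [inner_self_eq_norm_sq_to_K, inner_self_eq_norm_sq_to_K] at e2
    rw [e1]
    exact_mod_cast e2.symm
  have hpyth : ∀ v, ‖v‖ ^ 2 = ‖D v‖ ^ 2 + ‖(1 - D) v‖ ^ 2 := by
    intro v
    have e0 : v = D v + (1 - D) v := by
      rw [← add_apply, add_sub_cancel]; rfl
    have e1 : inner ℂ (D v) ((1 - D) v) = 0 := by
      have hadj : adjoint D = D := by rw [← star_eq_adjoint]; exact hDs
      rw [← adjoint_inner_right, hadj]
      change inner ℂ v ((D * (1 - D)) v) = 0
      rw [mul_sub, mul_one, hDD, sub_self]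
      simp
    have e2 := norm_add_sq_eq_norm_sq_add_norm_sq_of_inner_eq_zero (𝕜 := ℂ) (D v) ((1 - D) v) e1
    rw [← e0] at e2
    nlinarith [e2]
  have hnorm : ‖(1 - D) * p‖ ^ 2 ≤ 1 - t := by
    have h1 : ‖(1 - D) * p‖ ≤ Real.sqrt (1 - t) := by
      apply ContinuousLinearMap.opNorm_le_bound _ (Real.sqrt_nonneg _)
      intro v
      have h2 : ‖(1 - D) (p v)‖ ^ 2 ≤ (1 - t) * ‖v‖ ^ 2 := by
        have h3 := hpyth (p v)
        have h4 := hlow (p v) (by change (p * p) v = _; rw [hpp])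
        rw [hresD] at h4
        have h5 := proj_norm_le hpp hps v
        have h6 : ‖p v‖ ^ 2 ≤ ‖v‖ ^ 2 := by
          exact pow_le_pow_left₀ (norm_nonneg _) h5 2
        nlinarith
      have h7 : (Real.sqrt (1 - t) * ‖v‖) ^ 2 = (1 - t) * ‖v‖ ^ 2 := by
        rw [mul_pow, Real.sq_sqrt (by linarith)]
      rw [← h7] at h2
      exact le_of_sq_le_sq h2 (by positivity)
    calc ‖(1 - D) * p‖ ^ 2 ≤ Real.sqrt (1 - t) ^ 2 := pow_le_pow_left₀ (norm_nonneg _) h1 2
      _ = 1 - t := Real.sq_sqrt (by linarith)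
  have han : ‖a‖ < 1 := by
    have h1 : a = star ((1 - D) * p) * ((1 - D) * p) := by
      rw [star_mul, hps, star_sub, star_one, hDs]
      calc a = p * ((1 - D) * (1 - D)) * p := by
            rw [ha]
            congr 2
            rw [mul_sub, mul_one, sub_mul, one_mul, hDD]
            abel
        _ = _ := by simp only [mul_assoc]
    have h2 : ‖(adjoint ((1 - D) * p)).comp ((1 - D) * p)‖ = ‖(1 - D) * p‖ * ‖(1 - D) * p‖ :=
      norm_adjoint_comp_self _
    have h3 : star ((1 - D) * p) * ((1 - D) * p) = (adjoint ((1 - D) * p)).comp ((1 - D) * p) := rfl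
    rw [h1, h3, h2]
    nlinarith
  set B : L2 W →L[ℂ] L2 W := ∑' n : ℕ, a ^ n with hB
  have hB1 : B * (1 - a) = 1 := geom_series_mul_neg a han
  have hB2 : (1 - a) * B = 1 := mul_neg_geom_series a han
  have hBm : B ∈ roe W := roe_geom hW ham han
  have hcomm : (1 - a) * p = p * (1 - a) := by
    rw [sub_mul, mul_sub, one_mul, mul_one, hap, hpa]
  have hBp : B * p = p * B := by
    calc B * p = B * p * ((1 - a) * B) := by rw [hB2, mul_one]
      _ = B * (p * (1 - a)) * B := by simp only [mul_assoc]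
      _ = B * ((1 - a) * p) * B := by rw [hcomm]
      _ = (B * (1 - a)) * p * B := by simp only [mul_assoc]
      _ = p * B := by rw [hB1, one_mul]
  have hBs : star B = B := by
    have h1 : star B * (1 - a) = 1 := by
      have := congrArg star hB2
      rw [star_mul, star_one, star_sub, star_one, hasa] at this
      exact this
    calc star B = star B * ((1 - a) * B) := by rw [hB2, mul_one]
      _ = (star B * (1 - a)) * B := by rw [mul_assoc]
      _ = B := by rw [h1, one_mul]
  set T : L2 W →L[ℂ] L2 W := p * B with hT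
  have hTp : T * p = T := by rw [hT, mul_assoc, hBp, ← mul_assoc, hpp]
  have hpT : p * T = T := by rw [hT, ← mul_assoc, hpp]
  have hTm : T ∈ roe W := roe_mul hW hp.mem hBm
  have hTg : IsGhost T := hp.ghost.mul hW hBm
  have hpDp : p * D * p = p * (1 - a) := by
    rw [mul_sub, mul_one, hpa, haD]
    abel
  have hTDT : T * D * T = T := by
    calc T * D * T = (T * p) * D * (p * T) := by rw [hTp, hpT]
      _ = T * (p * D * p) * T := by simp only [mul_assoc]
      _ = T * (p * (1 - a)) * T := by rw [hpDp]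
      _ = (T * p) * ((1 - a) * p) * B := by rw [hT]; simp only [mul_assoc]
      _ = T * (p * (1 - a)) * B := by rw [hTp, hcomm]
      _ = T * p * ((1 - a) * B) := by simp only [mul_assoc]
      _ = T := by rw [hB2, mul_one, hTp]
  have hTs : star T = T := by
    rw [hT, star_mul, hBs, hps, hBp]
  refine ⟨comp σ hσ T, ?_, ?_, roe_comp σ hσ hc hTm, ghost_comp σ hσ hTg, ?_⟩
  · ext1 v
    change res σ hσ (T (resA σ hσ (res σ hσ (T (resA σ hσ v))))) = res σ hσ (T (resA σ hσ v))
    have h1 : T (resA σ hσ (res σ hσ (T (resA σ hσ v)))) = (T * D * T) (resA σ hσ v) := rfl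
    rw [h1, hTDT]
  · rw [star_eq_adjoint, comp, adjoint_comp, adjoint_comp, resA, adjoint_adjoint,
      ← star_eq_adjoint, hTs]
    rfl
  · intro hcpt
    apply hp.nc
    have h1 : IsCompactOperator (D * T * D) := by
      have h2 : D * T * D = (resA σ hσ).comp ((comp σ hσ T).comp (res σ hσ)) := rfl
      rw [h2]
      exact (hcpt.comp_clm (res σ hσ)).clm_comp (resA σ hσ)
    have h3 : IsCompactOperator
        ((((1 : L2 W →L[ℂ] L2 W) - a) * (T * (D * T * D) * T) : L2 W →L[ℂ] L2 W)) := by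
      have h4 : IsCompactOperator (T * (D * T * D)) := h1.clm_comp T
      have h5 : IsCompactOperator (T * (D * T * D) * T) := h4.comp_clm T
      exact h5.clm_comp (1 - a)
    have h6 : (1 - a) * (T * (D * T * D) * T) = p := by
      calc (1 - a) * (T * (D * T * D) * T) = (1 - a) * ((T * D * T) * D * T) := by
            simp only [mul_assoc]
        _ = (1 - a) * T := by rw [hTDT, hTDT]
        _ = ((1 - a) * p) * B := by rw [hT, mul_assoc]
        _ = p * ((1 - a) * B) := by rw [hcomm, mul_assoc]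
        _ = p := by rw [hB2, mul_one]
    rw [h6] at h3
    exact h3

end Pool.Agent.H626R3.Ghost
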