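import Pool.Agent.H626R3.Ghost.Sel

set_option autoImplicit false

namespace Pool.Agent.H626R3.Ghost

open ContinuousLinearMap

/-- A subspace `X'` of `X` is sparse if it is a disjoint union of finite nonempty sets `P n` with
`d(P n, P m) → ∞` as `n + m → ∞`, `n ≠ m`. -/
def IsSparse {X : Type*} [MetricSpace X] (X' : Set X) : Prop :=
  ∃ P : ℕ → Set X, (∀ n, (P n).Finite ∧ (P n).Nonempty) ∧
    (∀ n m, n ≠ m → Disjoint (P n) (P m)) ∧ (⋃ n, P n) = X' ∧
    ∀ R : ℝ, ∃ N : ℕ, ∀ n m : ℕ, n ≠ m → N ≤ n + m → ∀ x ∈ P n, ∀ y ∈ P m, R ≤ dist x y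

/-- All sparse subspaces of `X` yield only compact ghost projections. -/
def GhostCompact (X : Type*) [MetricSpace X] : Prop :=
  ∀ X' : Set X, IsSparse X' → ∀ p : L2 X' →L[ℂ] L2 X', p ∈ roe X' → IsGhost p →
    IsStarProjection p → IsCompactOperator p

/-- Coarse embeddings: `ρm (d y y') ≤ d (f y) (f y') ≤ ρp (d y y')` for nondecreasing functions
`ρm, ρp` from `[0, ∞)` to `[0, ∞)` with `ρm t → ∞` (only the values on `[0, ∞)` matter). -/
def IsCoarseEmbedding {Y X : Type*} [MetricSpace Y] [MetricSpace X] (f : Y → X) : Prop :=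
  ∃ ρm ρp : ℝ → ℝ, (∀ t, 0 ≤ t → 0 ≤ ρm t ∧ 0 ≤ ρp t) ∧ MonotoneOn ρm (Set.Ici 0) ∧
    MonotoneOn ρp (Set.Ici 0) ∧ Filter.Tendsto ρm Filter.atTop Filter.atTop ∧
    ∀ y y' : Y, ρm (dist y y') ≤ dist (f y) (f y') ∧ dist (f y) (f y') ≤ ρp (dist y y')

/-- Coarse equivalences: coarse embeddings with cobounded image. -/
def IsCoarseEquivalence {Y X : Type*} [MetricSpace Y] [MetricSpace X] (f : Y → X) : Prop :=
  IsCoarseEmbedding f ∧ ∃ C : ℝ, ∀ x : X, ∃ y : Y, dist x (f y) ≤ C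

theorem exists_range_eq {W : Type*} (s : Set W) (hf : s.Finite) (hne : s.Nonempty) (n : ℕ)
    (hn : s.ncard ≤ n) : ∃ f : Fin n → W, Set.range f = s := by
  classical
  obtain ⟨w0, hw0⟩ := hne
  set t := hf.toFinset with ht
  have hcard : t.card = s.ncard := (Set.ncard_eq_toFinset_card s hf).symm
  set en := t.equivFin with hen
  refine ⟨fun i => if h : (i : ℕ) < t.card then ((en.symm ⟨i, h⟩ : t) : W) else w0, ?_⟩
  ext w
  constructor
  · rintro ⟨i, rfl⟩
    dsimp only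
    split_ifs with h
    · exact hf.mem_toFinset.1 (en.symm ⟨i, h⟩).2
    · exact hw0
  · intro hw
    have hwt : w ∈ t := hf.mem_toFinset.2 hw
    have h1 : ((en ⟨w, hwt⟩ : Fin t.card) : ℕ) < n := lt_of_lt_of_le (en ⟨w, hwt⟩).2 (by omega)
    refine ⟨⟨en ⟨w, hwt⟩, h1⟩, ?_⟩
    dsimp only
    rw [dif_pos (en ⟨w, hwt⟩).2]
    have h2 : en.symm ⟨((en ⟨w, hwt⟩ : Fin t.card) : ℕ), (en ⟨w, hwt⟩).2⟩ = ⟨w, hwt⟩ :=
      en.symm_apply_apply _
    rw [h2]

/-- The main step: pushing a non-compact ghost projection along a surjective coarse embedding. -/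
theorem push {W V : Type*} [MetricSpace W] [MetricSpace V] (hW : ULF W) (g : W → V)
    (hg : Function.Surjective g)
    (ha : ∀ R : ℝ, ∃ S : ℝ, ∀ w w' : W, dist w w' ≤ R → dist (g w) (g w') ≤ S)
    (hb : ∀ R : ℝ, ∃ S : ℝ, ∀ w w' : W, dist (g w) (g w') ≤ R → dist w w' ≤ S)
    {p : L2 W →L[ℂ] L2 W} (hp : GP p) :
    ∃ Q : L2 V →L[ℂ] L2 V, Q * Q = Q ∧ star Q = Q ∧ Q ∈ roe V ∧ IsGhost Q ∧
      ¬ IsCompactOperator Q := by
  classical
  obtain ⟨S, hS⟩ := hb 0
  obtain ⟨N, hN⟩ := hW S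
  obtain ⟨k, hk⟩ : ∃ k : ℕ, N ≤ 2 ^ k := ⟨N, Nat.lt_two_pow_self.le⟩
  have hfib : ∀ c : V, ∃ f : Fin (2 ^ k) → W, Set.range f = {w | g w = c} := by
    intro c
    obtain ⟨w0, hw0⟩ := hg c
    have hsub : {w | g w = c} ⊆ Metric.closedBall w0 S := by
      intro w hw
      refine Metric.mem_closedBall.2 (hS w w0 ?_)
      rw [Set.mem_ofPred_eq] at hw
      rw [hw, hw0, dist_self]
    exact exists_range_eq _ ((hN w0).1.subset hsub) ⟨w0, hw0⟩ _
      ((Set.ncard_le_ncard hsub (hN w0).1).trans ((hN w0).2.trans hk))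
  choose e he using hfib
  have hge : ∀ c a, g (e c a) = c := by
    intro c a
    have : e c a ∈ {w | g w = c} := by rw [← he]; exact ⟨a, rfl⟩
    exact this
  have heg : ∀ w, ∃ a, e (g w) a = w := by
    intro w
    have : w ∈ Set.range (e (g w)) := by rw [he]; rfl
    exact this
  set K : ℝ := 84 * (Real.sqrt (2 ^ k) + 84) * Real.sqrt (2 ^ k) with hK
  have hK0 : 0 < K := by positivity
  have h2k : (0 : ℝ) < 2 ^ k := by positivity
  set δ : ℝ := min (1 / (2 * K)) (1 / 2 ^ k) with hδ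
  have hδ0 : 0 < δ := lt_min (by positivity) (by positivity)
  have hδ1 : K * δ ≤ 1 / 2 := by
    calc K * δ ≤ K * (1 / (2 * K)) := mul_le_mul_of_nonneg_left (min_le_left _ _) hK0.le
      _ = 1 / 2 := by field_simp
  have hδ2 : (2 : ℝ) ^ k * δ ^ 2 ≤ 1 := by
    have h1 : δ ≤ 1 / 2 ^ k := min_le_right _ _
    have h2 : 2 ^ k * δ ≤ 1 := by
      calc 2 ^ k * δ ≤ 2 ^ k * (1 / 2 ^ k) := mul_le_mul_of_nonneg_left h1 h2k.le
        _ = 1 := by field_simp
    have h3 : (1 : ℝ) ≤ 2 ^ k := one_le_pow₀ (by norm_num)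
    have h4 : δ ≤ 1 := by nlinarith
    nlinarith
  obtain ⟨p', hp', hsm⟩ := cut_small hW hp δ hδ0
  obtain ⟨s, hσ, hlow⟩ := sel_inf k g e hge heg hp'.idem hp'.sa δ hδ0 hδ2 hsm
  refine transfer hW (fun c => e c (s c)) hσ ?_ hp' (1 / (2 * 2 ^ k)) (by positivity) ?_ ?_
  · intro R
    obtain ⟨S', hS'⟩ := ha R
    refine ⟨S', fun c c' h => ?_⟩
    have := hS' _ _ h
    rwa [hge, hge] at this
  · rw [div_le_one (by positivity)]
    have h3 : (1 : ℝ) ≤ 2 ^ k := one_le_pow₀ (by norm_num)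
    linarith
  · intro v hv
    have h1 := hlow v hv
    have h2 : 84 * (Real.sqrt (2 ^ k) + 84) * Real.sqrt (2 ^ k) * δ * ‖v‖ ^ 2 ≤
        1 / 2 * ‖v‖ ^ 2 := mul_le_mul_of_nonneg_right hδ1 (by positivity)
    rw [div_mul_eq_mul_div, one_mul, div_le_iff₀ (by positivity)]
    nlinarith

theorem ulf_sub {X : Type*} [MetricSpace X] (hX : ULF X) (s : Set X) : ULF s := by
  intro r
  obtain ⟨N, hN⟩ := hX r
  refine ⟨N, fun x => ?_⟩
  have h1 : (Subtype.val '' (Metric.closedBall x r) : Set X) ⊆ Metric.closedBall (x : X) r := by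
    rintro _ ⟨y, hy, rfl⟩
    exact hy
  have h2 : (Subtype.val '' (Metric.closedBall x r) : Set X).Finite := (hN x).1.subset h1
  have h3 : (Metric.closedBall x r).Finite := Set.Finite.of_finite_image h2
    Subtype.val_injective.injOn
  refine ⟨h3, ?_⟩
  rw [← Set.ncard_image_of_injective _ Subtype.val_injective]
  exact (Set.ncard_le_ncard h1 (hN x).1).trans (hN x).2

theorem sparse_image {X Y : Type*} [MetricSpace X] [MetricSpace Y] (f : Y → X)
    (hb : ∀ R : ℝ, ∃ S : ℝ, ∀ w w' : Y, dist (f w) (f w') ≤ R → dist w w' ≤ S)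
    (Y' : Set Y) (hY : IsSparse Y') : IsSparse (f '' Y') := by
  classical
  obtain ⟨P, hP1, hP2, hP3, hP4⟩ := hY
  obtain ⟨S, hS⟩ := hb 0
  obtain ⟨N0, hN0⟩ := hP4 (S + 1)
  have hdis : ∀ n m, n ≠ m → N0 ≤ n + m → Disjoint (f '' P n) (f '' P m) := by
    intro n m hnm hN
    rw [Set.disjoint_left]
    rintro _ ⟨x, hx, rfl⟩ ⟨y, hy, hxy⟩
    have h1 := hN0 n m hnm hN x hx y hy
    have h2 := hS x y (by rw [hxy, dist_self])
    linarith
  have hdist : ∀ R : ℝ, ∃ N : ℕ, ∀ n m : ℕ, n ≠ m → N ≤ n + m → ∀ x ∈ f '' P n, ∀ y ∈ f '' P m,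
      R ≤ dist x y := by
    intro R
    obtain ⟨S1, hS1⟩ := hb R
    obtain ⟨N, hN⟩ := hP4 (S1 + 1)
    refine ⟨N, fun n m hnm hle => ?_⟩
    rintro _ ⟨x, hx, rfl⟩ _ ⟨y, hy, rfl⟩
    by_contra hcon
    push Not at hcon
    have h1 := hN n m hnm hle x hx y hy
    have h2 := hS1 x y hcon.le
    linarith
  -- the new partition
  set Q : ℕ → Set X := fun i => Nat.casesOn i (⋃ n ∈ Finset.range (N0 + 1), f '' P n)
    (fun j => f '' P (N0 + 1 + j)) with hQ
  have hQ0 : Q 0 = ⋃ n ∈ Finset.range (N0 + 1), f '' P n := rfl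
  have hQs : ∀ j, Q (j + 1) = f '' P (N0 + 1 + j) := fun j => rfl
  refine ⟨Q, ?_, ?_, ?_, ?_⟩
  · intro n
    cases n with
    | zero =>
      rw [hQ0]
      constructor
      · apply Set.Finite.biUnion (Finset.finite_toSet _)
        intro i _
        exact (hP1 i).1.image f
      · obtain ⟨x, hx⟩ := (hP1 0).2
        exact ⟨f x, Set.mem_biUnion (Finset.mem_coe.2 (Finset.mem_range.2 (Nat.succ_pos _)))
          ⟨x, hx, rfl⟩⟩
    | succ j =>
      rw [hQs]
      exact ⟨(hP1 _).1.image f, (hP1 _).2.image f⟩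
  · have h0 : ∀ j, Disjoint (Q 0) (Q (j + 1)) := by
      intro j
      rw [hQ0, hQs, Set.disjoint_left]
      intro x hx hx'
      rw [Set.mem_iUnion₂] at hx
      obtain ⟨n, hn, hx⟩ := hx
      have hn' := Finset.mem_range.1 hn
      exact Set.disjoint_left.1 (hdis n (N0 + 1 + j) (by omega) (by omega)) hx hx'
    intro n m hnm
    cases n with
    | zero =>
      cases m with
      | zero => exact absurd rfl hnm
      | succ j => exact h0 j
    | succ i =>
      cases m with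
      | zero => exact (h0 i).symm
      | succ j =>
        rw [hQs, hQs]
        exact hdis _ _ (by omega) (by omega)
  · ext x
    constructor
    · intro hx
      rw [Set.mem_iUnion] at hx
      obtain ⟨i, hi⟩ := hx
      cases i with
      | zero =>
        rw [hQ0, Set.mem_iUnion₂] at hi
        obtain ⟨n, _, y, hy, rfl⟩ := hi
        exact ⟨y, by rw [← hP3]; exact Set.mem_iUnion.2 ⟨n, hy⟩, rfl⟩
      | succ j =>
        rw [hQs] at hi
        obtain ⟨y, hy, rfl⟩ := hi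
        exact ⟨y, by rw [← hP3]; exact Set.mem_iUnion.2 ⟨_, hy⟩, rfl⟩
    · rintro ⟨y, hy, rfl⟩
      rw [← hP3, Set.mem_iUnion] at hy
      obtain ⟨n, hn⟩ := hy
      rw [Set.mem_iUnion]
      by_cases h : n < N0 + 1
      · refine ⟨0, ?_⟩
        rw [hQ0, Set.mem_iUnion₂]
        exact ⟨n, Finset.mem_range.2 h, y, hn, rfl⟩
      · refine ⟨n - (N0 + 1) + 1, ?_⟩
        rw [hQs]
        have : N0 + 1 + (n - (N0 + 1)) = n := by omega
        rw [this]
        exact ⟨y, hn, rfl⟩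
  · intro R
    obtain ⟨N, hN⟩ := hdist R
    refine ⟨N, ?_⟩
    have h0 : ∀ j, N ≤ j + 1 → ∀ x ∈ Q 0, ∀ y ∈ Q (j + 1), R ≤ dist x y := by
      intro j hj x hx y hy
      rw [hQ0, Set.mem_iUnion₂] at hx
      obtain ⟨n, hn, hx⟩ := hx
      have hn' := Finset.mem_range.1 hn
      rw [hQs] at hy
      exact hN n (N0 + 1 + j) (by omega) (by omega) x hx y hy
    intro n m hnm hle x hx y hy
    cases n with
    | zero =>
      cases m with
      | zero => exact absurd rfl hnm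
      | succ j => exact h0 j (by omega) x hx y hy
    | succ i =>
      cases m with
      | zero =>
        rw [dist_comm]
        exact h0 i (by omega) y hy x hx
      | succ j =>
        rw [hQs] at hx hy
        exact hN _ _ (by omega) (by omega) x hx y hy

/-- the two conditions used for coarse embeddings -/
theorem ghostCompact_of {X Y : Type*} [MetricSpace X] [MetricSpace Y] (hY : ULF Y) (f : Y → X)
    (ha : ∀ R : ℝ, ∃ S : ℝ, ∀ w w' : Y, dist w w' ≤ R → dist (f w) (f w') ≤ S)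
    (hb : ∀ R : ℝ, ∃ S : ℝ, ∀ w w' : Y, dist (f w) (f w') ≤ R → dist w w' ≤ S)
    (h : GhostCompact X) : GhostCompact Y := by
  intro Y' hsp p hp hgh hpr
  by_contra hnc
  have hGP : GP p := ⟨hpr.isIdempotentElem, hpr.isSelfAdjoint, hp, hgh, hnc⟩
  set g : Y' → (f '' Y' : Set X) := fun y => ⟨f y, ⟨y, y.2, rfl⟩⟩ with hg
  have hgs : Function.Surjective g := by
    rintro ⟨_, ⟨y, hy, rfl⟩⟩
    exact ⟨⟨y, hy⟩, rfl⟩
  obtain ⟨Q, h1, h2, h3, h4, h5⟩ := push (ulf_sub hY Y') g hgs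
    (fun R => by
      obtain ⟨S, hS⟩ := ha R
      exact ⟨S, fun w w' hw => hS w w' hw⟩)
    (fun R => by
      obtain ⟨S, hS⟩ := hb R
      exact ⟨S, fun w w' hw => hS w w' hw⟩) hGP
  exact h5 (h (f '' Y') (sparse_image f hb Y' hsp) Q h3 h4 ⟨h1, h2⟩)

theorem coarse_a {X Y : Type*} [MetricSpace X] [MetricSpace Y] {f : Y → X}
    (hf : IsCoarseEmbedding f) :
    ∀ R : ℝ, ∃ S : ℝ, ∀ w w' : Y, dist w w' ≤ R → dist (f w) (f w') ≤ S := by
  obtain ⟨ρm, ρp, h0, h1, h2, h3, h4⟩ := hf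
  intro R
  refine ⟨ρp (max R 0), fun w w' hw => (h4 w w').2.trans ?_⟩
  exact h2 (Set.mem_Ici.2 dist_nonneg) (Set.mem_Ici.2 (le_max_right _ _))
    (hw.trans (le_max_left _ _))

theorem coarse_b {X Y : Type*} [MetricSpace X] [MetricSpace Y] {f : Y → X}
    (hf : IsCoarseEmbedding f) :
    ∀ R : ℝ, ∃ S : ℝ, ∀ w w' : Y, dist (f w) (f w') ≤ R → dist w w' ≤ S := by
  obtain ⟨ρm, ρp, h0, h1, h2, h3, h4⟩ := hf
  intro R
  obtain ⟨S, hS⟩ := (Filter.tendsto_atTop.1 h3 (R + 1)).exists_forall_of_atTop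
  refine ⟨S, fun w w' hw => ?_⟩
  by_contra hcon
  push Not at hcon
  have h5 := hS _ hcon.le
  have h6 := (h4 w w').1
  linarith

/-- Q1 -/
theorem Q1 {X Y : Type*} [MetricSpace X] [MetricSpace Y] (hY : ULF Y) (f : Y → X)
    (hf : IsCoarseEmbedding f) (h : GhostCompact X) : GhostCompact Y :=
  ghostCompact_of hY f (coarse_a hf) (coarse_b hf) h

/-- Q2 -/
theorem Q2 {X Y : Type*} [MetricSpace X] [MetricSpace Y] (hX : ULF X) (hY : ULF Y) (f : Y → X)
    (hf : IsCoarseEquivalence f) : GhostCompact X ↔ GhostCompact Y := by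
  refine ⟨Q1 hY f hf.1, fun h => ?_⟩
  obtain ⟨hf1, C, hC⟩ := hf
  choose g hg using hC
  have ha := coarse_a hf1
  have hb := coarse_b hf1
  refine ghostCompact_of hX g (fun R => ?_) (fun R => ?_) h
  · obtain ⟨S, hS⟩ := hb (C + R + C)
    refine ⟨S, fun x x' hx => hS _ _ ?_⟩
    have h1 := hg x
    have h2 := hg x'
    have h3 := dist_triangle4 (f (g x)) x x' (f (g x'))
    rw [dist_comm (f (g x)) x] at h3
    linarith
  · obtain ⟨S, hS⟩ := ha R
    refine ⟨C + S + C, fun x x' hx => ?_⟩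
    have h0 := hS _ _ hx
    have h1 := hg x
    have h2 := hg x'
    have h3 := dist_triangle4 x (f (g x)) (f (g x')) x'
    rw [dist_comm (f (g x')) x'] at h3
    linarith

end Pool.Agent.H626R3.Ghost
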