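import Pool.Agent.H626R3.Ghost.Basic

set_option autoImplicit false

namespace Pool.Agent.H626R3.Ghost

open ContinuousLinearMap

theorem hasSum_sq {X : Type*} (v : L2 X) : HasSum (fun x => ‖(v : X → ℂ) x‖ ^ 2) (‖v‖ ^ 2) := by
  have h := lp.hasSum_norm (p := 2) (by norm_num) v
  simpa using h

section res

variable {W V : Type*} (σ : V → W) (hσ : Function.Injective σ)

include hσ in
theorem memlp_res (v : L2 W) : Memℓp (fun c => (v : W → ℂ) (σ c)) 2 := by
  apply memℓp_gen
  have h := (hasSum_sq v).summable.comp_injective hσ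
  refine h.congr fun c => ?_
  simp

/-- restriction along an injective map -/
noncomputable def res : L2 W →L[ℂ] L2 V :=
  LinearMap.mkContinuous
    { toFun := fun v => ⟨fun c => (v : W → ℂ) (σ c), memlp_res σ hσ v⟩
      map_add' := fun _ _ => rfl
      map_smul' := fun _ _ => rfl } 1 (by
    intro v
    rw [one_mul]
    have h1 := hasSum_sq (⟨fun c => (v : W → ℂ) (σ c), memlp_res σ hσ v⟩ : L2 V)
    have h2 := hasSum_sq v
    have h3 : ‖(⟨fun c => (v : W → ℂ) (σ c), memlp_res σ hσ v⟩ : L2 V)‖ ^ 2 ≤ ‖v‖ ^ 2 := by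
      rw [← h1.tsum_eq, ← h2.tsum_eq]
      exact tsum_comp_le_tsum_of_inj h2.summable (fun _ => by positivity) hσ
    exact le_of_sq_le_sq h3 (norm_nonneg v))

theorem res_apply (v : L2 W) (c : V) : (res σ hσ v : V → ℂ) c = (v : W → ℂ) (σ c) := rfl

theorem hasSum_res (v : L2 W) : HasSum (fun c => ‖(v : W → ℂ) (σ c)‖ ^ 2) (‖res σ hσ v‖ ^ 2) :=
  hasSum_sq (res σ hσ v)

theorem res_dl (c : V) : res σ hσ (dl (σ c)) = dl c := by
  classical
  ext c'
  rw [res_apply, dl_apply, dl_apply]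
  by_cases h : c' = c
  · rw [h, if_pos rfl, if_pos rfl]
  · rw [if_neg h, if_neg fun h' => h (hσ h')]

theorem res_dl_zero (w : W) (hw : ∀ c, σ c ≠ w) : res σ hσ (dl w) = 0 := by
  classical
  ext c'
  rw [res_apply, dl_apply, if_neg (hw c')]
  rfl

/-- the adjoint -/
noncomputable def resA : L2 V →L[ℂ] L2 W := adjoint (res σ hσ)

theorem resA_dl (c : V) : resA σ hσ (dl c) = dl (σ c) := by
  classical
  ext w
  rw [← inner_dl, resA, adjoint_inner_right, ← inner_conj_symm, inner_dl, res_apply, dl_apply,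
    dl_apply]
  by_cases h : w = σ c
  · rw [if_pos h, if_pos h.symm, map_one]
  · rw [if_neg h, if_neg fun h' => h h'.symm, map_zero]

theorem res_resA (v : L2 V) : res σ hσ (resA σ hσ v) = v := by
  ext c
  rw [res_apply, ← inner_dl, resA, adjoint_inner_right, res_dl, inner_dl]

/-- compression -/
noncomputable def comp (T : L2 W →L[ℂ] L2 W) : L2 V →L[ℂ] L2 V :=
  (res σ hσ).comp (T.comp (resA σ hσ))

theorem ent_comp (T : L2 W →L[ℂ] L2 W) (c c' : V) :
    ent (comp σ hσ T) c c' = ent T (σ c) (σ c') := by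
  have h1 : comp σ hσ T (dl c') = res σ hσ (T (resA σ hσ (dl c'))) := rfl
  rw [ent_eq, ent_eq, h1, res_apply, resA_dl]

theorem continuous_comp' : Continuous (comp σ hσ) := by
  unfold comp
  exact continuous_const.clm_comp (continuous_id.clm_comp continuous_const)

theorem ghost_comp {T : L2 W →L[ℂ] L2 W} (hT : IsGhost T) : IsGhost (comp σ hσ T) := by
  classical
  intro ε hε
  obtain ⟨F, hF⟩ := hT ε hε
  refine ⟨F.preimage σ hσ.injOn, fun x y hxy => ?_⟩
  rw [ent_comp]
  apply hF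
  intro h
  exact hxy (by simpa [Finset.mem_preimage] using h)

theorem roe_comp [MetricSpace W] [MetricSpace V]
    (hc : ∀ R : ℝ, ∃ S : ℝ, ∀ c c' : V, dist (σ c) (σ c') ≤ R → dist c c' ≤ S)
    {T : L2 W →L[ℂ] L2 W} (hT : T ∈ roe W) : comp σ hσ T ∈ roe V := by
  refine map_mem_closure (continuous_comp' σ hσ) hT ?_
  rintro T0 ⟨R, hR⟩
  obtain ⟨S, hS⟩ := hc R
  refine ⟨S, fun x y h => hS x y (hR _ _ ?_)⟩
  rw [← ent_comp σ hσ]
  exact h

/-- the diagonal projection onto the range of `σ` -/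
noncomputable def dg : L2 W →L[ℂ] L2 W := (resA σ hσ).comp (res σ hσ)

theorem dg_mul : dg σ hσ * dg σ hσ = dg σ hσ := by
  ext1 v
  change resA σ hσ (res σ hσ (resA σ hσ (res σ hσ v))) = resA σ hσ (res σ hσ v)
  rw [res_resA]

theorem dg_star : star (dg σ hσ) = dg σ hσ := by
  rw [star_eq_adjoint, dg, resA, adjoint_comp, adjoint_adjoint]

theorem finProp_dg [MetricSpace W] : FinProp (dg σ hσ) := by
  classical
  refine ⟨0, fun x y h => ?_⟩
  by_cases hy : ∃ c, σ c = y
  · obtain ⟨c, rfl⟩ := hy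
    have h1 : dg σ hσ (dl (σ c)) = dl (σ c) := by
      change resA σ hσ (res σ hσ (dl (σ c))) = _
      rw [res_dl, resA_dl]
    rw [ent_eq, h1, dl_apply] at h
    have : x = σ c := by
      by_contra hne
      exact h (if_neg hne)
    rw [this, dist_self]
  · push Not at hy
    have h1 : dg σ hσ (dl y) = 0 := by
      change resA σ hσ (res σ hσ (dl y)) = _
      rw [res_dl_zero σ hσ y hy, map_zero]
    rw [ent_eq, h1] at h
    exact absurd rfl h

end res

section proj

variable {W : Type*}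

theorem proj_norm_le {p : L2 W →L[ℂ] L2 W} (h1 : p * p = p) (h2 : star p = p) (v : L2 W) :
    ‖p v‖ ≤ ‖v‖ := by
  have h3 : inner ℂ (p v) (p v) = inner ℂ v (p v) := by
    rw [← adjoint_inner_right, ← star_eq_adjoint, h2]
    change inner ℂ v ((p * p) v) = _
    rw [h1]
  have h4 : ‖p v‖ ^ 2 ≤ ‖v‖ * ‖p v‖ := by
    have h5 := norm_inner_le_norm (𝕜 := ℂ) v (p v)
    rw [← h3] at h5
    have h6 : ‖inner ℂ (p v) (p v)‖ = ‖p v‖ ^ 2 := by
      rw [inner_self_eq_norm_sq_to_K]
      simp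
    rwa [h6] at h5
  rcases (norm_nonneg (p v)).eq_or_lt with h | h
  · rw [← h]; exact norm_nonneg v
  · nlinarith

theorem proj_diag {p : L2 W →L[ℂ] L2 W} (h1 : p * p = p) (h2 : star p = p) (w : W) :
    ent p w w = ((‖p (dl w)‖ ^ 2 : ℝ) : ℂ) := by
  have h3 : inner ℂ (p (dl w)) (p (dl w)) = inner ℂ (dl w) (p (dl w)) := by
    rw [← adjoint_inner_right, ← star_eq_adjoint, h2]
    change inner ℂ (dl w) ((p * p) (dl w)) = _
    rw [h1]
  unfold ent
  rw [← h3, inner_self_eq_norm_sq_to_K]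
  push_cast
  rfl

/-- rank one projection onto `δ_w` -/
noncomputable def rk (w : W) : L2 W →L[ℂ] L2 W := (innerSL ℂ (dl w)).smulRight (dl w)

theorem rk_apply (w : W) (v : L2 W) : rk w v = inner ℂ (dl w) v • dl w := rfl

theorem rk_compact (w : W) : IsCompactOperator (rk w) := by
  have h : IsCompactOperator (innerSL ℂ (dl w) : L2 W →L[ℂ] ℂ) :=
    isCompactOperator_of_locallyCompactSpace_dom (innerSL ℂ (dl w) : L2 W →L[ℂ] ℂ)
  exact h.clm_comp (toSpanSingleton ℂ (dl w))

theorem rk_star (w : W) : star (rk w) = rk w := by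
  rw [star_eq_adjoint]
  symm
  rw [eq_adjoint_iff]
  intro x y
  rw [rk_apply, rk_apply, inner_smul_left, inner_smul_right, inner_conj_symm]
  ring

theorem finProp_rk [MetricSpace W] (w : W) : FinProp (rk w) := by
  classical
  refine ⟨0, fun x y h => ?_⟩
  rw [ent_eq, rk_apply, inner_dl] at h
  rw [lp.coeFn_smul, Pi.smul_apply, dl_apply, dl_apply, smul_eq_mul] at h
  have h1 : w = y := by
    by_contra hne
    exact left_ne_zero_of_mul h (if_neg hne)
  have h2 : x = w := by
    by_contra hne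
    exact right_ne_zero_of_mul h (if_neg hne)
  rw [h2, h1, dist_self]

theorem rk_mul (w : W) (p : L2 W →L[ℂ] L2 W) : rk w * p * rk w = ent p w w • rk w := by
  ext1 v
  change rk w (p (rk w v)) = ent p w w • rk w v
  rw [rk_apply w v, map_smul, map_smul, rk_apply w (p (dl w)), smul_comm]
  rfl

end proj

end Pool.Agent.H626R3.Ghost
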