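import Pool.Agent.H626R3.Ghost.Cut
import Pool.Agent.NestConn.Halving

set_option autoImplicit false

namespace Pool.Agent.H626R3.Ghost

open ContinuousLinearMap

/-- the selection theorem in a general inner product space -/
theorem sel_hilb {H : Type*} [NormedAddCommGroup H] [InnerProductSpace ℂ H] (k m : ℕ)
    (u : Fin m → Fin (2 ^ k) → H) (M δ : ℝ) (hM : 0 ≤ M) (hδ : 0 < δ) (hk : 2 ^ k * δ ^ 2 ≤ 1)
    (hu : ∀ c a, ‖u c a‖ ≤ δ)
    (hQ : ∀ ξ : H, ∑ c, ∑ a, ‖(inner ℂ (u c a) ξ : ℂ)‖ ^ 2 ≤ M * ‖ξ‖ ^ 2) :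
    ∃ s : Fin m → Fin (2 ^ k), ∀ ξ : H,
      |2 ^ k * ∑ c, ‖(inner ℂ (u c (s c)) ξ : ℂ)‖ ^ 2 -
        ∑ c, ∑ a, ‖(inner ℂ (u c a) ξ : ℂ)‖ ^ 2| ≤
        84 * (Real.sqrt M + 84) * Real.sqrt (2 ^ k) * δ * ‖ξ‖ ^ 2 := by
  classical
  set N : Submodule ℂ H := Submodule.span ℂ
    (Set.range fun x : Fin m × Fin (2 ^ k) => u x.1 x.2) with hN
  have : FiniteDimensional ℂ N := FiniteDimensional.span_of_finite ℂ (Set.finite_range _)
  have hmem : ∀ c a, u c a ∈ N := fun c a => Submodule.subset_span ⟨(c, a), rfl⟩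
  set b := stdOrthonormalBasis ℂ N with hb
  have hon : Orthonormal ℂ (fun i => (b i : H)) := by
    have := b.orthonormal
    exact this.comp_linearIsometry N.subtypeₗᵢ
  set u' : Fin m → Fin (2 ^ k) → Fin (Module.finrank ℂ N) → ℂ :=
    fun c a i => inner ℂ (b i : H) (u c a) with hu'
  have hexp : ∀ c a, u c a = ∑ i, u' c a i • (b i : H) := by
    intro c a
    have h1 := b.sum_repr' (⟨u c a, hmem c a⟩ : N)
    have h2 := congrArg (fun z : N => (z : H)) h1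
    simp only [Submodule.coe_sum, Submodule.coe_smul] at h2
    exact h2.symm
  have hinner : ∀ c a (ξ : H), (inner ℂ (u c a) ξ : ℂ) =
      ∑ i, star (u' c a i) * inner ℂ (b i : H) ξ := by
    intro c a ξ
    conv_lhs => rw [hexp c a, sum_inner]
    refine Finset.sum_congr rfl fun i _ => ?_
    rw [inner_smul_left]
    rfl
  have hsynth : ∀ c a (x : Fin (Module.finrank ℂ N) → ℂ),
      (inner ℂ (u c a) (∑ i, x i • (b i : H)) : ℂ) = ∑ i, star (u' c a i) * x i := by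
    intro c a x
    rw [inner_sum]
    refine Finset.sum_congr rfl fun i _ => ?_
    rw [inner_smul_right, mul_comm, ← inner_conj_symm]
    rfl
  have hnorm : ∀ x : Fin (Module.finrank ℂ N) → ℂ,
      ‖∑ i, x i • (b i : H)‖ ^ 2 = ∑ i, ‖x i‖ ^ 2 := by
    intro x
    have h1 := hon.inner_sum x x Finset.univ
    rw [inner_self_eq_norm_sq_to_K] at h1
    have h2 : ((‖∑ i, x i • (b i : H)‖ ^ 2 : ℝ) : ℂ) = ((∑ i, ‖x i‖ ^ 2 : ℝ) : ℂ) := by
      push_cast
      rw [show ((‖∑ i, x i • (b i : H)‖ : ℂ)) ^ 2 = _ from h1]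
      refine Finset.sum_congr rfl fun i _ => ?_
      rw [mul_comm, Complex.mul_conj, Complex.normSq_eq_norm_sq]
      push_cast
      rfl
    exact_mod_cast h2
  obtain ⟨s, hs⟩ := Nest57.selection_fin M hM k (Fin m) (Fin (2 ^ k)) (by simp) u' δ hδ hk
    (by
      intro c a
      rw [← hnorm, ← hexp]
      exact pow_le_pow_left₀ (norm_nonneg _) (hu c a) 2)
    (by
      intro x
      have := hQ (∑ i, x i • (b i : H))
      rw [hnorm] at this
      simpa only [hsynth] using this)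
  refine ⟨s, fun ξ => ?_⟩
  have h1 := hs (fun i => inner ℂ (b i : H) ξ)
  simp only [← hinner] at h1
  refine h1.trans ?_
  refine mul_le_mul_of_nonneg_left ?_ (by positivity)
  exact hon.sum_inner_products_le ξ

section infinite

variable {W V : Type*}

/-- selection over an infinite index set, by compactness -/
theorem sel_inf (k : ℕ) (g : W → V) (e : V → Fin (2 ^ k) → W) (hge : ∀ c a, g (e c a) = c)
    (heg : ∀ w, ∃ a, e (g w) a = w) {p : L2 W →L[ℂ] L2 W} (h1 : p * p = p) (h2 : star p = p)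
    (δ : ℝ) (hδ : 0 < δ) (hk : 2 ^ k * δ ^ 2 ≤ 1) (hsm : ∀ w, ‖p (dl w)‖ ≤ δ) :
    ∃ s : V → Fin (2 ^ k), ∃ hσ : Function.Injective (fun c => e c (s c)),
      ∀ v : L2 W, p v = v →
      ‖v‖ ^ 2 - 84 * (Real.sqrt (2 ^ k) + 84) * Real.sqrt (2 ^ k) * δ * ‖v‖ ^ 2 ≤
        2 ^ k * ‖res (fun c => e c (s c)) hσ v‖ ^ 2 := by
  classical
  set ε : ℝ := 84 * (Real.sqrt (2 ^ k) + 84) * Real.sqrt (2 ^ k) * δ with hε
  have hinj : ∀ a : Fin (2 ^ k), Function.Injective (fun c => e c a) := by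
    intro a c c' h
    rw [← hge c a, ← hge c' a]
    exact congrArg g h
  have hinj' : ∀ s : V → Fin (2 ^ k), Function.Injective (fun c => e c (s c)) := by
    intro s c c' h
    rw [← hge c (s c), ← hge c' (s c')]
    exact congrArg g h
  have hsumm : ∀ (v : L2 W) (a : Fin (2 ^ k)), Summable fun c => ‖(v : W → ℂ) (e c a)‖ ^ 2 :=
    fun v a => (hasSum_sq v).summable.comp_injective (hinj a)
  have hle : ∀ (v : L2 W) (a : Fin (2 ^ k)), ∑' c, ‖(v : W → ℂ) (e c a)‖ ^ 2 ≤ ‖v‖ ^ 2 := by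
    intro v a
    rw [← (hasSum_sq v).tsum_eq]
    exact tsum_comp_le_tsum_of_inj (hasSum_sq v).summable (fun _ => by positivity) (hinj a)
  have hin : ∀ w (v : L2 W), (inner ℂ (p (dl w)) v : ℂ) = ((p v : L2 W) : W → ℂ) w := by
    intro w v
    rw [← inner_dl, ← adjoint_inner_right, ← star_eq_adjoint, h2]
  -- finite selections
  have hfin : ∀ G : Finset V, ∃ s : V → Fin (2 ^ k), ∀ v : L2 W, p v = v →
      |2 ^ k * ∑ c ∈ G, ‖(v : W → ℂ) (e c (s c))‖ ^ 2 -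
        ∑ c ∈ G, ∑ a, ‖(v : W → ℂ) (e c a)‖ ^ 2| ≤ ε * ‖v‖ ^ 2 := by
    intro G
    set en := G.equivFin with hen
    obtain ⟨s, hs⟩ := sel_hilb k G.card (fun c a => p (dl (e ((en.symm c : G) : V) a)))
      (2 ^ k) δ (by positivity) hδ hk (fun c a => hsm _) (by
        intro ξ
        simp only [hin]
        have h3 : ∑ c : Fin G.card, ∑ a : Fin (2 ^ k),
            ‖((p ξ : L2 W) : W → ℂ) (e ((en.symm c : G) : V) a)‖ ^ 2 =
            ∑ a : Fin (2 ^ k), ∑ c ∈ G, ‖((p ξ : L2 W) : W → ℂ) (e c a)‖ ^ 2 := by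
          rw [Finset.sum_comm]
          refine Finset.sum_congr rfl fun a _ => ?_
          rw [← Finset.sum_coe_sort G (fun c => ‖((p ξ : L2 W) : W → ℂ) (e c a)‖ ^ 2)]
          exact Equiv.sum_comp en.symm
            (fun c : G => ‖((p ξ : L2 W) : W → ℂ) (e (c : V) a)‖ ^ 2)
        rw [h3]
        calc ∑ a : Fin (2 ^ k), ∑ c ∈ G, ‖((p ξ : L2 W) : W → ℂ) (e c a)‖ ^ 2
            ≤ ∑ a : Fin (2 ^ k), ‖p ξ‖ ^ 2 := by
              refine Finset.sum_le_sum fun a _ => ?_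
              exact ((hsumm (p ξ) a).sum_le_tsum G (fun _ _ => by positivity)).trans (hle _ a)
          _ = 2 ^ k * ‖p ξ‖ ^ 2 := by simp
          _ ≤ 2 ^ k * ‖ξ‖ ^ 2 := by
              refine mul_le_mul_of_nonneg_left ?_ (by positivity)
              exact pow_le_pow_left₀ (norm_nonneg _) (proj_norm_le h1 h2 ξ) 2)
    refine ⟨fun c => if h : c ∈ G then s (en ⟨c, h⟩) else 0, fun v hv => ?_⟩
    have h4 := hs v
    simp only [hin, hv] at h4
    have e1 : ∑ c ∈ G, ‖(v : W → ℂ) (e c (if h : c ∈ G then s (en ⟨c, h⟩) else 0))‖ ^ 2 =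
        ∑ c : Fin G.card, ‖(v : W → ℂ) (e ((en.symm c : G) : V) (s c))‖ ^ 2 := by
      rw [← Finset.sum_coe_sort G, ← Equiv.sum_comp en.symm]
      refine Finset.sum_congr rfl fun c _ => ?_
      rw [dif_pos (en.symm c).2]
      have h5 : en ⟨((en.symm c : G) : V), (en.symm c).2⟩ = c := en.apply_symm_apply c
      rw [h5]
    have e2 : ∑ c ∈ G, ∑ a, ‖(v : W → ℂ) (e c a)‖ ^ 2 =
        ∑ c : Fin G.card, ∑ a, ‖(v : W → ℂ) (e ((en.symm c : G) : V) a)‖ ^ 2 := by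
      rw [← Finset.sum_coe_sort G, ← Equiv.sum_comp en.symm]
    rw [e1, e2]
    exact h4
  choose sG hsG using hfin
  set U : Ultrafilter (Finset V) := Ultrafilter.of Filter.atTop with hU
  have hUle : (U : Filter (Finset V)) ≤ Filter.atTop := Ultrafilter.of_le _
  have hpt : ∀ c, ∃ a, ∀ᶠ G in (U : Filter (Finset V)), sG G c = a := by
    intro c
    obtain ⟨a, ha⟩ := (U.map (fun G => sG G c)).eq_pure_of_finite
    refine ⟨a, ?_⟩
    have : {a} ∈ U.map (fun G => sG G c) := by rw [ha]; exact rfl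
    exact this
  choose s hs using hpt
  refine ⟨s, hinj' s, fun v hv => ?_⟩
  set F : V → ℝ := fun c => ∑ a, ‖(v : W → ℂ) (e c a)‖ ^ 2 with hF
  have hFs : Summable F := summable_sum fun a _ => hsumm v a
  have hF0 : ∀ c, 0 ≤ F c := fun c => Finset.sum_nonneg fun _ _ => by positivity
  have hS : ‖v‖ ^ 2 ≤ ∑' c, F c := by
    set F2 : V × Fin (2 ^ k) → ℝ := fun x => ‖(v : W → ℂ) (e x.1 x.2)‖ ^ 2 with hF2
    have hF2s : Summable F2 := by
      rw [summable_prod_of_nonneg (fun _ => by positivity)]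
      refine ⟨fun c => (hasSum_fintype _).summable, ?_⟩
      refine hFs.congr fun c => ?_
      rw [tsum_fintype]
    have h5 : ∑' x, F2 x = ∑' c, F c := by
      rw [hF2s.tsum_prod]
      refine tsum_congr fun c => ?_
      rw [tsum_fintype]
    choose al hal using heg
    have h6 : Function.Injective (fun w => ((g w, al w) : V × Fin (2 ^ k))) := by
      intro w w' h
      have h7 : g w = g w' := congrArg Prod.fst h
      have h8 : al w = al w' := congrArg Prod.snd h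
      rw [← hal w, ← hal w', h7, h8]
    rw [← h5, ← (hasSum_sq v).tsum_eq]
    have h9 : (fun w => ‖(v : W → ℂ) w‖ ^ 2) = F2 ∘ (fun w => ((g w, al w) : V × Fin (2 ^ k))) := by
      ext w
      simp only [hF2, Function.comp, hal]
    rw [h9]
    exact tsum_comp_le_tsum_of_inj hF2s (fun _ => by positivity) h6
  have hres := hasSum_res (fun c => e c (s c)) (hinj' s) v
  refine le_of_forall_pos_le_add fun η hη => ?_
  set η' : ℝ := η / (2 ^ k + 1) with hη'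
  have hη'0 : 0 < η' := by positivity
  obtain ⟨G0, hG0⟩ : ∃ G0 : Finset V, ∑' c, F c - η' < ∑ c ∈ G0, F c := by
    have h7 := hFs.hasSum.eventually (lt_mem_nhds (show ∑' c, F c - η' < ∑' c, F c by linarith))
    exact h7.exists
  have hev : ∀ᶠ G in (U : Filter (Finset V)), G0 ⊆ G ∧ ∀ c ∈ G0, sG G c = s c := by
    have hA : ∀ᶠ G in (U : Filter (Finset V)), G0 ⊆ G := hUle (Filter.mem_atTop G0)
    refine hA.and ?_
    rw [Filter.eventually_all_finset]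
    intro c _
    exact hs c
  obtain ⟨G, hGs, hGe⟩ := hev.exists
  have k1 := hsG G v hv
  rw [abs_le] at k1
  have k2 : ∑ c ∈ G0, ‖(v : W → ℂ) (e c (s c))‖ ^ 2 ≤
      ‖res (fun c => e c (s c)) (hinj' s) v‖ ^ 2 := by
    rw [← hres.tsum_eq]
    exact hres.summable.sum_le_tsum G0 (fun _ _ => by positivity)
  have k3 : ∑ c ∈ G0, ‖(v : W → ℂ) (e c (s c))‖ ^ 2 = ∑ c ∈ G0, ‖(v : W → ℂ) (e c (sG G c))‖ ^ 2 :=
    Finset.sum_congr rfl fun c hc => by rw [hGe c hc]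
  have k4 : ∑ c ∈ G, ‖(v : W → ℂ) (e c (sG G c))‖ ^ 2 =
      ∑ c ∈ G \ G0, ‖(v : W → ℂ) (e c (sG G c))‖ ^ 2 +
      ∑ c ∈ G0, ‖(v : W → ℂ) (e c (sG G c))‖ ^ 2 := (Finset.sum_sdiff hGs).symm
  have k5 : ∑ c ∈ G \ G0, ‖(v : W → ℂ) (e c (sG G c))‖ ^ 2 ≤ ∑ c ∈ G \ G0, F c := by
    refine Finset.sum_le_sum fun c _ => ?_
    exact Finset.single_le_sum (f := fun a => ‖(v : W → ℂ) (e c a)‖ ^ 2)
      (fun _ _ => by positivity) (Finset.mem_univ _)
  have k6 : ∑ c ∈ G, F c = ∑ c ∈ G \ G0, F c + ∑ c ∈ G0, F c := (Finset.sum_sdiff hGs).symm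
  have k7 : ∑ c ∈ G, F c ≤ ∑' c, F c := hFs.sum_le_tsum G (fun c _ => hF0 c)
  have k8 : ∑ c ∈ G, ∑ a, ‖(v : W → ℂ) (e c a)‖ ^ 2 = ∑ c ∈ G, F c := rfl
  have k9 : (0 : ℝ) < 2 ^ k := by positivity
  have k10 : η' * (2 ^ k + 1) = η := by
    rw [hη']; field_simp
  have k11 : 0 ≤ ∑ c ∈ G \ G0, F c := Finset.sum_nonneg fun c _ => hF0 c
  rw [k8] at k1
  have k12 : ∑ c ∈ G \ G0, F c ≤ η' := by linarith
  have k13 : 2 ^ k * ∑ c ∈ G \ G0, ‖(v : W → ℂ) (e c (sG G c))‖ ^ 2 ≤ 2 ^ k * η' :=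
    mul_le_mul_of_nonneg_left (k5.trans k12) k9.le
  have k14 : 2 ^ k * ∑ c ∈ G0, ‖(v : W → ℂ) (e c (sG G c))‖ ^ 2 ≤
      2 ^ k * ‖res (fun c => e c (s c)) (hinj' s) v‖ ^ 2 := by
    rw [← k3]
    exact mul_le_mul_of_nonneg_left k2 k9.le
  have k15 : 2 ^ k * ∑ c ∈ G, ‖(v : W → ℂ) (e c (sG G c))‖ ^ 2 =
      2 ^ k * ∑ c ∈ G \ G0, ‖(v : W → ℂ) (e c (sG G c))‖ ^ 2 +
      2 ^ k * ∑ c ∈ G0, ‖(v : W → ℂ) (e c (sG G c))‖ ^ 2 := by rw [k4]; ring
  have := k1.1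
  linarith

end infinite

end Pool.Agent.H626R3.Ghost
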